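import Mathlib
import Pool.Agent.TH344.DT.Main
import Pool.Agent.TH344.GT.Cur

/-! The quadratic twists of the curves with full rational 2-torsion: all the moments of the orders of
the 2-Selmer groups are bounded outside of a set of density zero (after
`Pool.Agent.TH344.DT.Fin`). -/

set_option autoImplicit false

namespace Pool.Agent.Q17.FT

open Finset Pool.Agent.W262.RK Pool.Agent.W307.RT Pool.Agent.W307.RS Pool.Agent.W307.SE
  Pool.Agent.W307.FK Pool.Agent.TH344.DT Pool.Agent.TH344.DT.FinP Pool.Agent.W410.FK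

open Classical in
/-- the `k`-th power of the order of the 2-Selmer group of `y² = x (x - d a) (x - d b)` with the
weight -/
noncomputable def Gd (d : ℤ) (k : ℕ) (T : Finset (Fin 3 → ℝ)) (t : ℤ × ℤ) : ℝ :=
  if t.1 ≠ 0 ∧ t.2 ≠ 0 ∧ t.1 ≠ t.2 then
    ((Sel (d * t.1) (d * t.2)).ncard : ℝ) ^ k * rho T (omg t) else 0

variable {T : Finset (Fin 3 → ℝ)} {d : ℤ}

lemma Gd_nonneg (hT : ∀ t ∈ T, ∀ j, 0 < t j) (k : ℕ) (t : ℤ × ℤ) : 0 ≤ Gd d k T t := by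
  unfold Gd
  split_ifs
  · exact mul_nonneg (by positivity) (FinP.rho_nonneg hT _)
  · exact le_rfl

lemma pf_mul_le (g : ℕ) (hd : d ≠ 0) (hg : g ≠ 0) :
    (d * (g : ℤ)).natAbs.primeFactors.card ≤ d.natAbs.primeFactors.card + g.primeFactors.card := by
  rw [Int.natAbs_mul, Int.natAbs_natCast,
    Nat.primeFactors_mul (Int.natAbs_ne_zero.2 hd) hg]
  exact card_union_le _ _

lemma box_Gd (hT : ∀ t ∈ T, ∀ j, 0 < t j) (hd : d ≠ 0) (k : ℕ)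
    (h1 : AVGW k T (fun a b => (Sel a b).ncard)) :
    ∃ C : ℝ, 0 ≤ C ∧ ∀ N : ℕ, 1 ≤ N → ∑ t ∈ Box N, Gd d k T t ≤ C * (N : ℝ) ^ 2 := by
  classical
  obtain ⟨C1, hC1, h1⟩ := h1 1
  obtain ⟨C2, hC2, h2⟩ := som8 k
  set Q : ℝ := (2 * 8 ^ k) ^ d.natAbs.primeFactors.card with hQ
  refine ⟨9 * C1 * Q * C2, by positivity, fun N hN => ?_⟩
  -- decomposition with respect to the greatest common divisor
  set S := (Box N).filter fun t : ℤ × ℤ => t.1 ≠ 0 ∧ t.2 ≠ 0 ∧ t.1 ≠ t.2 with hS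
  have e1 : ∑ t ∈ Box N, Gd d k T t = ∑ t ∈ S, Gd d k T t := by
    symm
    apply sum_subset (filter_subset _ _)
    intro t ht ht2
    unfold Gd
    rw [if_neg]
    intro h
    exact ht2 (mem_filter.2 ⟨ht, h⟩)
  let F : ℤ × ℤ → (Σ _ : ℕ, ℤ × ℤ) := fun t =>
    ⟨Int.gcd t.1 t.2, (t.1 / (Int.gcd t.1 t.2 : ℤ), t.2 / (Int.gcd t.1 t.2 : ℤ))⟩
  have hdiv : ∀ t : ℤ × ℤ, (Int.gcd t.1 t.2 : ℤ) * (t.1 / (Int.gcd t.1 t.2 : ℤ)) = t.1 ∧
      (Int.gcd t.1 t.2 : ℤ) * (t.2 / (Int.gcd t.1 t.2 : ℤ)) = t.2 := fun t =>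
    ⟨Int.mul_ediv_cancel' (Int.gcd_dvd_left _ _), Int.mul_ediv_cancel' (Int.gcd_dvd_right _ _)⟩
  have hinj : Set.InjOn F S := by
    intro t _ t' _ h
    have g1 : Int.gcd t.1 t.2 = Int.gcd t'.1 t'.2 := congrArg Sigma.fst h
    have g2 : (t.1 / (Int.gcd t.1 t.2 : ℤ), t.2 / (Int.gcd t.1 t.2 : ℤ)) =
        (t'.1 / (Int.gcd t'.1 t'.2 : ℤ), t'.2 / (Int.gcd t'.1 t'.2 : ℤ)) :=
      congrArg (fun x : (Σ _ : ℕ, ℤ × ℤ) => x.2) h
    rw [Prod.mk.injEq] at g2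
    obtain ⟨a1, a2⟩ := hdiv t
    obtain ⟨b1, b2⟩ := hdiv t'
    ext
    · rw [← a1, ← b1, g2.1, g1]
    · rw [← a2, ← b2, g2.2, g1]
  have hmem : ∀ t ∈ S, F t ∈ (Icc 1 N).sigma (fun g => Box (N / g)) ∧
      Gd d k T t = SW k T (fun a b => (Sel a b).ncard) (d * ((F t).1 : ℤ)) (F t).2 := by
    intro t ht
    obtain ⟨ht1, t1, t2, t3⟩ := mem_filter.1 ht
    rw [mem_Box] at ht1
    obtain ⟨a1, a2⟩ := hdiv t
    have hg0 : 0 < Int.gcd t.1 t.2 := Int.gcd_pos_of_ne_zero_left _ t1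
    have hgT : Int.gcd t.1 t.2 ≤ N := by
      have : Int.gcd t.1 t.2 ≤ t.1.natAbs :=
        Nat.le_of_dvd (by omega) (Int.natCast_dvd.1 (Int.gcd_dvd_left _ _))
      omega
    have hb : ∀ x y : ℤ, (Int.gcd t.1 t.2 : ℤ) * x = y → y.natAbs ≤ N →
        x.natAbs ≤ N / Int.gcd t.1 t.2 := by
      intro x y hxy hy
      rw [Nat.le_div_iff_mul_le hg0]
      rw [← hxy, Int.natAbs_mul, Int.natAbs_natCast] at hy
      linarith
    refine ⟨?_, ?_⟩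
    · rw [mem_sigma, mem_Icc, mem_Box]
      exact ⟨⟨hg0, hgT⟩, hb _ _ a1 ht1.1, hb _ _ a2 ht1.2⟩
    · unfold Gd SW
      rw [if_pos ⟨t1, t2, t3⟩, if_pos]
      · change _ = ((Sel (d * (Int.gcd t.1 t.2 : ℤ) * (t.1 / (Int.gcd t.1 t.2 : ℤ)))
          (d * (Int.gcd t.1 t.2 : ℤ) * (t.2 / (Int.gcd t.1 t.2 : ℤ)))).ncard : ℝ) ^ k *
            rho T (omg t)
        rw [mul_assoc, mul_assoc, a1, a2]
      · refine ⟨?_, ?_, ?_, ?_⟩
        · exact Int.isCoprime_iff_gcd_eq_one.2 (Int.gcd_ediv_gcd_ediv_gcd hg0)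
        · intro h
          apply t1
          change t.1 / (Int.gcd t.1 t.2 : ℤ) = 0 at h
          rw [← a1, h, mul_zero]
        · intro h
          apply t2
          change t.2 / (Int.gcd t.1 t.2 : ℤ) = 0 at h
          rw [← a2, h, mul_zero]
        · intro h
          apply t3
          change t.1 / (Int.gcd t.1 t.2 : ℤ) = t.2 / (Int.gcd t.1 t.2 : ℤ) at h
          exact a1.symm.trans ((congrArg (fun x => (Int.gcd t.1 t.2 : ℤ) * x) h).trans a2)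
  have e2 : ∑ t ∈ S, Gd d k T t ≤
      ∑ x ∈ (Icc 1 N).sigma (fun g => Box (N / g)),
        SW k T (fun a b => (Sel a b).ncard) (d * (x.1 : ℤ)) x.2 := by
    calc ∑ t ∈ S, Gd d k T t =
          ∑ t ∈ S, SW k T (fun a b => (Sel a b).ncard) (d * ((F t).1 : ℤ)) (F t).2 :=
          sum_congr rfl fun t ht => (hmem t ht).2
      _ = ∑ x ∈ S.image F, SW k T (fun a b => (Sel a b).ncard) (d * (x.1 : ℤ)) x.2 := by
          rw [sum_image hinj]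
      _ ≤ _ := sum_le_sum_of_subset_of_nonneg (fun x hx => by
          obtain ⟨t, ht, rfl⟩ := mem_image.1 hx
          exact (hmem t ht).1) fun x _ _ => SW_nonneg hT _ _ _ _
  rw [e1]
  refine e2.trans ?_
  rw [sum_sigma]
  have e3 : ∀ g ∈ Icc 1 N,
      ∑ s ∈ Box (N / g), SW k T (fun a b => (Sel a b).ncard) (d * (g : ℤ)) s ≤
      9 * C1 * Q * (N : ℝ) ^ 2 * ((2 * 8 ^ k : ℝ) ^ g.primeFactors.card / (g : ℝ) ^ 2) := by
    intro g hg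
    rw [mem_Icc] at hg
    have hg0 : (0 : ℝ) < g := by exact_mod_cast hg.1
    have h3 := box_uni (g := SW k T (fun a b => (Sel a b).ncard) (d * (g : ℤ)))
      (A := C1 * (Q * (2 * 8 ^ k) ^ g.primeFactors.card)) (by positivity)
      (fun N1 N2 X hX b1 b2 => by
        have := h1 (d * (g : ℤ)) N1 N2 X
          (mul_ne_zero hd (by exact_mod_cast (by omega : g ≠ 0))) hX b1 b2
        refine this.trans ?_
        have h5 : ((2 * 8 ^ k : ℝ)) ^ (d * (g : ℤ)).natAbs.primeFactors.card ≤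
            Q * (2 * 8 ^ k) ^ g.primeFactors.card := by
          rw [hQ, ← pow_add]
          apply pow_le_pow_right₀
          · have : (1 : ℝ) ≤ 8 ^ k := one_le_pow₀ (by norm_num)
            linarith
          · exact pf_mul_le g hd (by omega)
        gcongr) (T := N / g) ((Nat.one_le_div_iff hg.1).2 hg.2)
    refine h3.trans ?_
    have h4 : (((N / g : ℕ) : ℝ)) ^ 2 ≤ ((N : ℝ) / g) ^ 2 :=
      pow_le_pow_left₀ (Nat.cast_nonneg _) Nat.cast_div_le 2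
    calc C1 * (Q * (2 * 8 ^ k) ^ g.primeFactors.card) * (9 * (((N / g : ℕ) : ℝ)) ^ 2)
        ≤ C1 * (Q * (2 * 8 ^ k) ^ g.primeFactors.card) * (9 * ((N : ℝ) / g) ^ 2) := by gcongr
      _ = _ := by
        field_simp
  refine (sum_le_sum e3).trans ?_
  rw [← mul_sum]
  calc 9 * C1 * Q * (N : ℝ) ^ 2 *
        ∑ g ∈ Icc 1 N, (2 * 8 ^ k : ℝ) ^ g.primeFactors.card / (g : ℝ) ^ 2
      ≤ 9 * C1 * Q * (N : ℝ) ^ 2 * C2 := mul_le_mul_of_nonneg_left (h2 N) (by positivity)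
    _ = 9 * C1 * Q * C2 * (N : ℝ) ^ 2 := by ring

/-- **all the twists of all the curves with full rational 2-torsion** -/
theorem exc_full : ∃ F : ℤ × ℤ → ℤ × ℤ,
    (∀ H, ∀ c ∈ Cv 2 H, 4 * c.1 ^ 3 + 27 * c.2 ^ 2 ≠ 0 ∧ (F c).1 ≠ 0 ∧ (F c).2 ≠ 0 ∧
      (F c).1 ≠ (F c).2 ∧ ∃ e1 e2 e3 : ℤ,
        (∀ x : ℤ, x ^ 3 + c.1 * x + c.2 = (x - e1) * (x - e2) * (x - e3)) ∧
        e2 - e1 = (F c).1 ∧ e3 - e1 = (F c).2) ∧
    ∀ d : ℤ, d ≠ 0 → Pool.Agent.TH344.GT.EXC (Cv 2)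
      (fun c => (Sel (d * (F c).1) (d * (F c).2)).ncard) := by
  classical
  obtain ⟨F, hinj, hF⟩ := Pool.Agent.W513.FK.parf
  have hmem : ∀ H, ∀ c ∈ Cv 2 H, 4 * c.1 ^ 3 + 27 * c.2 ^ 2 ≠ 0 ∧ 4 * |c.1| ^ 3 ≤ H ∧
      HasT 2 (Sh c.1 c.2) := by
    intro H c hc
    unfold Cv at hc
    obtain ⟨_, a1, a2, _, _, a3⟩ := mem_filter.1 hc
    exact ⟨a1, a2, a3⟩
  let F' : ℤ × ℤ → ℤ × ℤ := fun c => (((F c).1 : ℤ) * (F c).2.1, ((F c).1 : ℤ) * (F c).2.2)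
  have key : ∀ H, ∀ c ∈ Cv 2 H,
      ((F' c).1 ≠ 0 ∧ (F' c).2 ≠ 0 ∧ (F' c).1 ≠ (F' c).2) ∧
        (F' c).1.natAbs ^ 6 ≤ 16 * H ∧ (F' c).2.natAbs ^ 6 ≤ 16 * H := by
    intro H c hc
    obtain ⟨a1, a2, a3⟩ := hmem H c hc
    obtain ⟨b1, b2, b3, b4, b5, e1, e2, e3, hr, d1, d2⟩ := hF c a1 a3
    have hg : ((F c).1 : ℤ) ≠ 0 := by exact_mod_cast (by omega : (F c).1 ≠ 0)
    have hne1 : (F' c).1 ≠ 0 := mul_ne_zero hg b3
    have hne2 : (F' c).2 ≠ 0 := mul_ne_zero hg b4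
    have hne3 : (F' c).1 ≠ (F' c).2 := fun h => b5 (mul_left_cancel₀ hg h)
    obtain ⟨r1, r2⟩ := root_bd hr
    refine ⟨⟨hne1, hne2, hne3⟩, ?_, ?_⟩
    · rw [d1] at r1
      exact size_bd r1 a2
    · rw [d2] at r2
      exact size_bd r2 a2
  have hinj' : ∀ H, Set.InjOn F' (Cv 2 H : Set (ℤ × ℤ)) := by
    intro H c hc c' hc' h
    obtain ⟨a1, _, a3⟩ := hmem H c hc
    obtain ⟨a1', _, a3'⟩ := hmem H c' hc'
    obtain ⟨b1, b2, _⟩ := hF c a1 a3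
    obtain ⟨b1', b2', _⟩ := hF c' a1' a3'
    apply hinj ⟨a1, a3⟩ ⟨a1', a3'⟩
    have hgcd : ∀ x : ℕ × ℤ × ℤ, IsCoprime x.2.1 x.2.2 →
        Int.gcd ((x.1 : ℤ) * x.2.1) ((x.1 : ℤ) * x.2.2) = x.1 := by
      intro x hx
      rw [Int.gcd_mul_left, Int.isCoprime_iff_gcd_eq_one.1 hx, mul_one, Int.natAbs_natCast]
    have g1 : (F c).1 = (F c').1 := by
      rw [← hgcd _ b2, ← hgcd _ b2']
      have k1 := congrArg Prod.fst h
      have k2 := congrArg Prod.snd h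
      change ((F c).1 : ℤ) * (F c).2.1 = ((F c').1 : ℤ) * (F c').2.1 at k1
      change ((F c).1 : ℤ) * (F c).2.2 = ((F c').1 : ℤ) * (F c').2.2 at k2
      rw [k1, k2]
    have hg : ((F c).1 : ℤ) ≠ 0 := by exact_mod_cast (by omega : (F c).1 ≠ 0)
    have k1 : ((F c).1 : ℤ) * (F c).2.1 = ((F c').1 : ℤ) * (F c').2.1 := congrArg Prod.fst h
    have k2 : ((F c).1 : ℤ) * (F c).2.2 = ((F c').1 : ℤ) * (F c').2.2 := congrArg Prod.snd h
    rw [← g1] at k1 k2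
    exact Prod.ext g1 (Prod.ext (mul_left_cancel₀ hg k1) (mul_left_cancel₀ hg k2))
  refine ⟨F', fun H c hc => ?_, fun d hd => ?_⟩
  · obtain ⟨a1, a2, a3⟩ := hmem H c hc
    obtain ⟨b1, b2, b3, b4, b5, e1, e2, e3, hr, d1, d2⟩ := hF c a1 a3
    exact ⟨a1, (key H c hc).1.1, (key H c hc).1.2.1, (key H c hc).1.2.2, e1, e2, e3, hr, d1, d2⟩
  · apply Pool.Agent.TH344.GT.exc_curves (κ := 6) (by norm_num) Pool.Agent.W672.FK.lowf 16 F'
      (fun t => t.1 ≠ 0 ∧ t.2 ≠ 0 ∧ t.1 ≠ t.2) _ hinj' key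
    intro k hk
    obtain ⟨T, hT1, hT2, hM⟩ := mafw_of (atw_of ful lnk) cmb expw k hk
    refine ⟨fun t => rho T (omg t), Gd d k T,
      fun t => ⟨FinP.rho_nonneg hT1 _, FinP.rho_le_one _ _⟩,
      Gd_nonneg hT1 k, fun ε hε => ?_, fun H c hc => ?_,
      box_Gd hT1 hd k (avg k T hT1 hM _ selfg)⟩
    · obtain ⟨N0, h⟩ := bad T hT1 hT2 ε hε
      refine ⟨N0, fun N hN => ?_⟩
      have := h N hN
      convert this using 3
      ext t
      simp [and_assoc]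
    · unfold Gd
      rw [if_pos (key H c hc).1]

end Pool.Agent.Q17.FT
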