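import Mathlib
import Pool.Agent.Q17.FT.Tw
import Pool.Agent.Q17.BF.Diag

/-! The quadratic twists of the curves with full rational 2-torsion: one set of density zero for all
the moments and for all the twists, and bounds that are uniform in the twist. -/

set_option autoImplicit false

namespace Pool.Agent.Q17.FT

open Finset Pool.Agent.W262.RK Pool.Agent.W307.RT Pool.Agent.W307.RS Pool.Agent.W307.SE
  Pool.Agent.W307.FK Pool.Agent.TH344.DT Pool.Agent.TH344.DT.FinP Pool.Agent.W410.FK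

variable {T : Finset (Fin 3 → ℝ)}

lemma rho_pos (hT : ∀ t ∈ T, ∀ j, 0 < t j) (n : Fin 3 → ℕ) : 0 < rho T n := by
  classical
  unfold rho
  rw [Finset.lt_inf'_iff]
  intro t ht
  refine prod_pos fun j _ => ?_
  rcases mem_insert.1 ht with rfl | h
  · simp
  · exact pow_pos (hT t h j) _

/-- the moments over the boxes, uniformly in the twist -/
lemma box_Gu (hT : ∀ t ∈ T, ∀ j, 0 < t j) (k : ℕ)
    (h1 : AVGW k T (fun a b => (Sel a b).ncard)) :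
    ∃ C : ℝ, 0 ≤ C ∧ ∀ d : ℤ, d ≠ 0 → ∀ N : ℕ, 1 ≤ N → ∑ t ∈ Box N, Gd d k T t ≤
      C * (2 * 8 ^ k) ^ d.natAbs.primeFactors.card * (N : ℝ) ^ 2 := by
  classical
  obtain ⟨C1, hC1, h1⟩ := h1 1
  obtain ⟨C2, hC2, h2⟩ := som8 k
  refine ⟨9 * C1 * C2, by positivity, fun d hd N hN => ?_⟩
  set Q : ℝ := (2 * 8 ^ k) ^ d.natAbs.primeFactors.card with hQ
  -- decomposition with respect to the greatest common divisor
  set S := (Box N).filter fun t : ℤ × ℤ => t.1 ≠ 0 ∧ t.2 ≠ 0 ∧ t.1 ≠ t.2 with hS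
  have e1 : ∑ t ∈ Box N, Gd d k T t = ∑ t ∈ S, Gd d k T t := by
    symm
    apply sum_subset (filter_subset _ _)
    intro t ht ht2
    unfold Gd
    rw [if_neg]
    intro h
    exact ht2 (mem_filter.2 ⟨ht, h⟩)
  let F : ℤ × ℤ → (Σ _ : ℕ, ℤ × ℤ) := fun t =>
    ⟨Int.gcd t.1 t.2, (t.1 / (Int.gcd t.1 t.2 : ℤ), t.2 / (Int.gcd t.1 t.2 : ℤ))⟩
  have hdiv : ∀ t : ℤ × ℤ, (Int.gcd t.1 t.2 : ℤ) * (t.1 / (Int.gcd t.1 t.2 : ℤ)) = t.1 ∧
      (Int.gcd t.1 t.2 : ℤ) * (t.2 / (Int.gcd t.1 t.2 : ℤ)) = t.2 := fun t =>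
    ⟨Int.mul_ediv_cancel' (Int.gcd_dvd_left _ _), Int.mul_ediv_cancel' (Int.gcd_dvd_right _ _)⟩
  have hinj : Set.InjOn F S := by
    intro t _ t' _ h
    have g1 : Int.gcd t.1 t.2 = Int.gcd t'.1 t'.2 := congrArg Sigma.fst h
    have g2 : (t.1 / (Int.gcd t.1 t.2 : ℤ), t.2 / (Int.gcd t.1 t.2 : ℤ)) =
        (t'.1 / (Int.gcd t'.1 t'.2 : ℤ), t'.2 / (Int.gcd t'.1 t'.2 : ℤ)) :=
      congrArg (fun x : (Σ _ : ℕ, ℤ × ℤ) => x.2) h
    rw [Prod.mk.injEq] at g2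
    obtain ⟨a1, a2⟩ := hdiv t
    obtain ⟨b1, b2⟩ := hdiv t'
    ext
    · rw [← a1, ← b1, g2.1, g1]
    · rw [← a2, ← b2, g2.2, g1]
  have hmem : ∀ t ∈ S, F t ∈ (Icc 1 N).sigma (fun g => Box (N / g)) ∧
      Gd d k T t = SW k T (fun a b => (Sel a b).ncard) (d * ((F t).1 : ℤ)) (F t).2 := by
    intro t ht
    obtain ⟨ht1, t1, t2, t3⟩ := mem_filter.1 ht
    rw [mem_Box] at ht1
    obtain ⟨a1, a2⟩ := hdiv t
    have hg0 : 0 < Int.gcd t.1 t.2 := Int.gcd_pos_of_ne_zero_left _ t1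
    have hgT : Int.gcd t.1 t.2 ≤ N := by
      have : Int.gcd t.1 t.2 ≤ t.1.natAbs :=
        Nat.le_of_dvd (by omega) (Int.natCast_dvd.1 (Int.gcd_dvd_left _ _))
      omega
    have hb : ∀ x y : ℤ, (Int.gcd t.1 t.2 : ℤ) * x = y → y.natAbs ≤ N →
        x.natAbs ≤ N / Int.gcd t.1 t.2 := by
      intro x y hxy hy
      rw [Nat.le_div_iff_mul_le hg0]
      rw [← hxy, Int.natAbs_mul, Int.natAbs_natCast] at hy
      linarith
    refine ⟨?_, ?_⟩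
    · rw [mem_sigma, mem_Icc, mem_Box]
      exact ⟨⟨hg0, hgT⟩, hb _ _ a1 ht1.1, hb _ _ a2 ht1.2⟩
    · unfold Gd SW
      rw [if_pos ⟨t1, t2, t3⟩, if_pos]
      · change _ = ((Sel (d * (Int.gcd t.1 t.2 : ℤ) * (t.1 / (Int.gcd t.1 t.2 : ℤ)))
          (d * (Int.gcd t.1 t.2 : ℤ) * (t.2 / (Int.gcd t.1 t.2 : ℤ)))).ncard : ℝ) ^ k *
            rho T (omg t)
        rw [mul_assoc, mul_assoc, a1, a2]
      · refine ⟨?_, ?_, ?_, ?_⟩
        · exact Int.isCoprime_iff_gcd_eq_one.2 (Int.gcd_ediv_gcd_ediv_gcd hg0)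
        · intro h
          apply t1
          change t.1 / (Int.gcd t.1 t.2 : ℤ) = 0 at h
          rw [← a1, h, mul_zero]
        · intro h
          apply t2
          change t.2 / (Int.gcd t.1 t.2 : ℤ) = 0 at h
          rw [← a2, h, mul_zero]
        · intro h
          apply t3
          change t.1 / (Int.gcd t.1 t.2 : ℤ) = t.2 / (Int.gcd t.1 t.2 : ℤ) at h
          exact a1.symm.trans ((congrArg (fun x => (Int.gcd t.1 t.2 : ℤ) * x) h).trans a2)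
  have e2 : ∑ t ∈ S, Gd d k T t ≤
      ∑ x ∈ (Icc 1 N).sigma (fun g => Box (N / g)),
        SW k T (fun a b => (Sel a b).ncard) (d * (x.1 : ℤ)) x.2 := by
    calc ∑ t ∈ S, Gd d k T t =
          ∑ t ∈ S, SW k T (fun a b => (Sel a b).ncard) (d * ((F t).1 : ℤ)) (F t).2 :=
          sum_congr rfl fun t ht => (hmem t ht).2
      _ = ∑ x ∈ S.image F, SW k T (fun a b => (Sel a b).ncard) (d * (x.1 : ℤ)) x.2 := by
          rw [sum_image hinj]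
      _ ≤ _ := sum_le_sum_of_subset_of_nonneg (fun x hx => by
          obtain ⟨t, ht, rfl⟩ := mem_image.1 hx
          exact (hmem t ht).1) fun x _ _ => SW_nonneg hT _ _ _ _
  rw [e1]
  refine e2.trans ?_
  rw [sum_sigma]
  have e3 : ∀ g ∈ Icc 1 N,
      ∑ s ∈ Box (N / g), SW k T (fun a b => (Sel a b).ncard) (d * (g : ℤ)) s ≤
      9 * C1 * Q * (N : ℝ) ^ 2 * ((2 * 8 ^ k : ℝ) ^ g.primeFactors.card / (g : ℝ) ^ 2) := by
    intro g hg
    rw [mem_Icc] at hg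
    have hg0 : (0 : ℝ) < g := by exact_mod_cast hg.1
    have h3 := box_uni (g := SW k T (fun a b => (Sel a b).ncard) (d * (g : ℤ)))
      (A := C1 * (Q * (2 * 8 ^ k) ^ g.primeFactors.card)) (by positivity)
      (fun N1 N2 X hX b1 b2 => by
        have := h1 (d * (g : ℤ)) N1 N2 X
          (mul_ne_zero hd (by exact_mod_cast (by omega : g ≠ 0))) hX b1 b2
        refine this.trans ?_
        have h5 : ((2 * 8 ^ k : ℝ)) ^ (d * (g : ℤ)).natAbs.primeFactors.card ≤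
            Q * (2 * 8 ^ k) ^ g.primeFactors.card := by
          rw [hQ, ← pow_add]
          apply pow_le_pow_right₀
          · have : (1 : ℝ) ≤ 8 ^ k := one_le_pow₀ (by norm_num)
            linarith
          · exact pf_mul_le g hd (by omega)
        gcongr) (T := N / g) ((Nat.one_le_div_iff hg.1).2 hg.2)
    refine h3.trans ?_
    have h4 : (((N / g : ℕ) : ℝ)) ^ 2 ≤ ((N : ℝ) / g) ^ 2 :=
      pow_le_pow_left₀ (Nat.cast_nonneg _) Nat.cast_div_le 2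
    calc C1 * (Q * (2 * 8 ^ k) ^ g.primeFactors.card) * (9 * (((N / g : ℕ) : ℝ)) ^ 2)
        ≤ C1 * (Q * (2 * 8 ^ k) ^ g.primeFactors.card) * (9 * ((N : ℝ) / g) ^ 2) := by gcongr
      _ = _ := by
        field_simp
  refine (sum_le_sum e3).trans ?_
  rw [← mul_sum]
  calc 9 * C1 * Q * (N : ℝ) ^ 2 *
        ∑ g ∈ Icc 1 N, (2 * 8 ^ k : ℝ) ^ g.primeFactors.card / (g : ℝ) ^ 2
      ≤ 9 * C1 * Q * (N : ℝ) ^ 2 * C2 := mul_le_mul_of_nonneg_left (h2 N) (by positivity)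
    _ = 9 * C1 * C2 * Q * (N : ℝ) ^ 2 := by ring

/-- the moments of one exponent: an exceptional set, and bounds uniform in the twist -/
lemma one_k {F : ℤ × ℤ → ℤ × ℤ} (hinj : ∀ H, Set.InjOn F (Cv 2 H : Set (ℤ × ℤ)))
    (hbd : ∀ H, ∀ c ∈ Cv 2 H, ((F c).1 ≠ 0 ∧ (F c).2 ≠ 0 ∧ (F c).1 ≠ (F c).2) ∧
      (F c).1.natAbs ^ 6 ≤ 16 * H ∧ (F c).2.natAbs ^ 6 ≤ 16 * H) {k : ℕ} (hk : 1 ≤ k) :
    ∃ Z : Set (ℤ × ℤ), (∀ ε : ℝ, 0 < ε → ∃ H0 : ℕ, ∀ H, H0 ≤ H →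
      (((Cv 2 H : Set (ℤ × ℤ)) ∩ Z).ncard : ℝ) ≤ ε * (Cv 2 H).card) ∧
    ∃ C : ℝ, 0 ≤ C ∧ ∃ M : ℤ × ℤ → ℝ, (∀ c, 0 ≤ M c) ∧ ∀ d : ℤ, d ≠ 0 → ∀ H,
      (∀ c ∈ Cv 2 H, ((Sel (d * (F c).1) (d * (F c).2)).ncard : ℝ) ^ k ≤
        C * (2 * 8 ^ k) ^ d.natAbs.primeFactors.card * M c * (16 * H + 1) ^ 2) ∧
      ∀ S : Finset (ℤ × ℤ), S ⊆ Cv 2 H → (∀ c ∈ S, c ∉ Z) →
      ∑ c ∈ S, ((Sel (d * (F c).1) (d * (F c).2)).ncard : ℝ) ^ k ≤
        C * (2 * 8 ^ k) ^ d.natAbs.primeFactors.card * (Cv 2 H).card := by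
  classical
  obtain ⟨T, hT1, hT2, hM⟩ := mafw_of (atw_of ful lnk) cmb expw k hk
  obtain ⟨C, hC0, hC⟩ := box_Gu hT1 k (avg k T hT1 hM _ selfg)
  obtain ⟨C4, N1, hC4, hlow⟩ := low_box Pool.Agent.W672.FK.lowf
  have hQ0 : ∀ d : ℤ, (0 : ℝ) ≤ (2 * 8 ^ k) ^ d.natAbs.primeFactors.card := fun d => by positivity
  -- the side of the box
  have hbox : ∀ H : ℕ, ∃ N : ℕ, N ^ 6 ≤ 16 * H ∧ ∀ n : ℕ, n ^ 6 ≤ 16 * H → n ≤ N := by
    intro H
    refine ⟨Nat.findGreatest (fun n => n ^ 6 ≤ 16 * H) (16 * H), ?_, fun n hn => ?_⟩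
    · exact Nat.findGreatest_spec (P := fun n => n ^ 6 ≤ 16 * H) (Nat.zero_le _) (by simp)
    · exact Nat.le_findGreatest ((Nat.le_self_pow (by norm_num) n).trans hn) hn
  choose N hN1 hN2 using hbox
  have hpos : ∀ H, ∀ c ∈ Cv 2 H, 1 ≤ N H := by
    intro H c hc
    obtain ⟨⟨h1, -, -⟩, h2, -⟩ := hbd H c hc
    exact (Nat.pos_of_ne_zero (Int.natAbs_ne_zero.2 h1)).trans_le (hN2 H _ h2)
  have hbx : ∀ H, ∀ c ∈ Cv 2 H, F c ∈ Box (N H) := by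
    intro H c hc
    obtain ⟨-, h2, h3⟩ := hbd H c hc
    rw [mem_Box]
    exact ⟨hN2 H _ h2, hN2 H _ h3⟩
  refine ⟨{c | rho T (omg (F c)) < 1}, fun ε hε => ?_, C * (1 + (C4 + (N1 : ℝ) ^ 2)), ?_,
    fun c => (rho T (omg (F c)))⁻¹, fun c => ?_, fun d hd H => ⟨fun c hc => ?_, fun S hS hSZ => ?_⟩⟩
  · obtain ⟨N0, hbad⟩ := bad T hT1 hT2 (ε / C4) (by positivity)
    refine ⟨(max N0 N1 + 1) ^ 6, fun H hH => ?_⟩
    have hN3 : max N0 N1 + 1 ≤ N H := hN2 H _ (by omega)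
    have hNN0 : N0 ≤ N H := by omega
    have hNN1 : N1 ≤ N H := by omega
    have e0 : ((Cv 2 H : Set (ℤ × ℤ)) ∩ {c | rho T (omg (F c)) < 1}) =
        (((Cv 2 H).filter (fun c => rho T (omg (F c)) < 1) : Finset (ℤ × ℤ)) : Set (ℤ × ℤ)) := by
      ext c
      simp
    rw [e0, Set.ncard_coe_finset]
    have h1 : ((Cv 2 H).filter (fun c => rho T (omg (F c)) < 1)).card ≤
        ((Box (N H)).filter (fun t => t.1 ≠ 0 ∧ t.2 ≠ 0 ∧ t.1 ≠ t.2 ∧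
          rho T (omg t) < 1)).card := by
      apply card_le_card_of_injOn F
      · intro c hc
        rw [mem_coe, mem_filter] at hc
        obtain ⟨⟨b1, b2, b3⟩, b4, b5⟩ := hbd H c hc.1
        rw [mem_coe, mem_filter]
        exact ⟨hbx H c hc.1, b1, b2, b3, hc.2⟩
      · intro c hc c' hc' h
        rw [mem_coe, mem_filter] at hc hc'
        exact hinj H (mem_coe.2 hc.1) (mem_coe.2 hc'.1) h
    have h2 := hbad (N H) hNN0
    have h3 := hlow (N H) H hNN1 (hN1 H)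
    calc (((Cv 2 H).filter (fun c => rho T (omg (F c)) < 1)).card : ℝ)
        ≤ (((Box (N H)).filter (fun t => t.1 ≠ 0 ∧ t.2 ≠ 0 ∧ t.1 ≠ t.2 ∧
          rho T (omg t) < 1)).card : ℝ) := by exact_mod_cast h1
      _ ≤ ε / C4 * (N H) ^ 2 := h2
      _ ≤ ε / C4 * (C4 * (Cv 2 H).card) := mul_le_mul_of_nonneg_left h3 (by positivity)
      _ = ε * (Cv 2 H).card := by
        field_simp
  · positivity
  · exact inv_nonneg.2 (rho_pos hT1 _).le
  · -- one curve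
    have h1 : Gd d k T (F c) ≤ C * (2 * 8 ^ k) ^ d.natAbs.primeFactors.card * (N H : ℝ) ^ 2 :=
      (single_le_sum (fun t _ => Gd_nonneg hT1 k t) (hbx H c hc)).trans
        (hC d hd (N H) (hpos H c hc))
    have h2 : Gd d k T (F c) =
        ((Sel (d * (F c).1) (d * (F c).2)).ncard : ℝ) ^ k * rho T (omg (F c)) := by
      unfold Gd
      rw [if_pos (hbd H c hc).1]
    have h3 := rho_pos hT1 (omg (F c))
    have h4 : (N H : ℝ) ≤ 16 * H + 1 := by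
      have h5 : N H ≤ 16 * H := (Nat.le_self_pow (by norm_num) _).trans (hN1 H)
      have : (N H : ℝ) ≤ 16 * H := by exact_mod_cast h5
      linarith
    have h5 : (N H : ℝ) ^ 2 ≤ (16 * H + 1) ^ 2 := pow_le_pow_left₀ (Nat.cast_nonneg _) h4 2
    rw [h2, ← le_div_iff₀ h3] at h1
    refine h1.trans ?_
    rw [div_eq_mul_inv]
    have h6 : C * (2 * 8 ^ k) ^ d.natAbs.primeFactors.card * (N H : ℝ) ^ 2 *
        (rho T (omg (F c)))⁻¹ ≤ C * (2 * 8 ^ k) ^ d.natAbs.primeFactors.card *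
          (16 * H + 1) ^ 2 * (rho T (omg (F c)))⁻¹ := by
      have := inv_nonneg.2 h3.le
      gcongr
    refine h6.trans ?_
    have h7 : C * (2 * 8 ^ k) ^ d.natAbs.primeFactors.card * (16 * (H : ℝ) + 1) ^ 2 *
        (rho T (omg (F c)))⁻¹ = C * 1 * (2 * 8 ^ k) ^ d.natAbs.primeFactors.card *
          (rho T (omg (F c)))⁻¹ * (16 * H + 1) ^ 2 := by ring
    rw [h7]
    have h8 := inv_nonneg.2 h3.le
    have h9 : (1 : ℝ) ≤ 1 + (C4 + (N1 : ℝ) ^ 2) := by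
      have : (0 : ℝ) ≤ C4 + (N1 : ℝ) ^ 2 := by positivity
      linarith
    gcongr
  · rcases S.eq_empty_or_nonempty with rfl | ⟨c0, hc0⟩
    · rw [sum_empty]
      positivity
    have hNpos := hpos H c0 (hS hc0)
    have hcard : (1 : ℝ) ≤ (Cv 2 H).card := by
      exact_mod_cast card_pos.2 ⟨c0, hS hc0⟩
    have h1 : ∑ c ∈ S, ((Sel (d * (F c).1) (d * (F c).2)).ncard : ℝ) ^ k ≤
        ∑ t ∈ Box (N H), Gd d k T t := by
      calc ∑ c ∈ S, ((Sel (d * (F c).1) (d * (F c).2)).ncard : ℝ) ^ k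
          = ∑ c ∈ S, Gd d k T (F c) := by
            refine sum_congr rfl fun c hc => ?_
            unfold Gd
            rw [if_pos (hbd H c (hS hc)).1]
            have h2 : rho T (omg (F c)) = 1 :=
              le_antisymm (FinP.rho_le_one _ _) (not_lt.1 (hSZ c hc))
            rw [h2, mul_one]
        _ = ∑ t ∈ S.image F, Gd d k T t := by
            rw [sum_image]
            intro c hc c' hc' h
            exact hinj H (mem_coe.2 (hS hc)) (mem_coe.2 (hS hc')) h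
        _ ≤ _ := sum_le_sum_of_subset_of_nonneg (fun t ht => by
            obtain ⟨c, hc, rfl⟩ := mem_image.1 ht
            exact hbx H c (hS hc)) fun t _ _ => Gd_nonneg hT1 k t
    have h2 : (N H : ℝ) ^ 2 ≤ (C4 + (N1 : ℝ) ^ 2) * (Cv 2 H).card := by
      rcases le_total N1 (N H) with h3 | h3
      · have h4 := hlow (N H) H h3 (hN1 H)
        have h5 : (0 : ℝ) ≤ (N1 : ℝ) ^ 2 * (Cv 2 H).card := by positivity
        linarith
      · have h4 : (N H : ℝ) ^ 2 ≤ (N1 : ℝ) ^ 2 :=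
          pow_le_pow_left₀ (Nat.cast_nonneg _) (by exact_mod_cast h3) 2
        have h5 : (N1 : ℝ) ^ 2 * 1 ≤ (N1 : ℝ) ^ 2 * (Cv 2 H).card :=
          mul_le_mul_of_nonneg_left hcard (by positivity)
        have h6 : (0 : ℝ) ≤ C4 * (Cv 2 H).card := by positivity
        linarith
    refine h1.trans ((hC d hd (N H) hNpos).trans ?_)
    calc C * (2 * 8 ^ k) ^ d.natAbs.primeFactors.card * (N H : ℝ) ^ 2
        ≤ C * (2 * 8 ^ k) ^ d.natAbs.primeFactors.card *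
          ((C4 + (N1 : ℝ) ^ 2) * (Cv 2 H).card) := by gcongr
      _ ≤ C * (2 * 8 ^ k) ^ d.natAbs.primeFactors.card *
          ((1 + (C4 + (N1 : ℝ) ^ 2)) * (Cv 2 H).card) := by
          refine mul_le_mul_of_nonneg_left ?_ (mul_nonneg hC0 (hQ0 d))
          exact mul_le_mul_of_nonneg_right (by linarith) (Nat.cast_nonneg _)
      _ = _ := by ring

/-- **One set of density zero for all the moments and for all the twists of the curves with full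
rational 2-torsion, and bounds uniform in the twist.** -/
theorem unif : ∃ F : ℤ × ℤ → ℤ × ℤ,
    (∀ H, ∀ c ∈ Cv 2 H, 4 * c.1 ^ 3 + 27 * c.2 ^ 2 ≠ 0 ∧ (F c).1 ≠ 0 ∧ (F c).2 ≠ 0 ∧
      (F c).1 ≠ (F c).2 ∧ ∃ e1 e2 e3 : ℤ,
        (∀ x : ℤ, x ^ 3 + c.1 * x + c.2 = (x - e1) * (x - e2) * (x - e3)) ∧
        e2 - e1 = (F c).1 ∧ e3 - e1 = (F c).2) ∧
    ∃ Z : Set (ℤ × ℤ), (∀ ε : ℝ, 0 < ε → ∃ H0 : ℕ, ∀ H, H0 ≤ H →
      (((Cv 2 H : Set (ℤ × ℤ)) ∩ Z).ncard : ℝ) ≤ ε * (Cv 2 H).card) ∧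
    ∀ k : ℕ, ∃ C : ℝ, 0 ≤ C ∧ ∀ d : ℤ, d ≠ 0 → ∀ H, ∀ S : Finset (ℤ × ℤ), S ⊆ Cv 2 H →
      (∀ c ∈ S, c ∉ Z) → ∑ c ∈ S, ((Sel (d * (F c).1) (d * (F c).2)).ncard : ℝ) ^ k ≤
        C * (2 * 8 ^ k) ^ d.natAbs.primeFactors.card * (Cv 2 H).card := by
  classical
  obtain ⟨F, hinj, hF⟩ := Pool.Agent.W513.FK.parf
  have hmem : ∀ H, ∀ c ∈ Cv 2 H, 4 * c.1 ^ 3 + 27 * c.2 ^ 2 ≠ 0 ∧ 4 * |c.1| ^ 3 ≤ H ∧
      HasT 2 (Sh c.1 c.2) := by
    intro H c hc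
    unfold Cv at hc
    obtain ⟨_, a1, a2, _, _, a3⟩ := mem_filter.1 hc
    exact ⟨a1, a2, a3⟩
  let F' : ℤ × ℤ → ℤ × ℤ := fun c => (((F c).1 : ℤ) * (F c).2.1, ((F c).1 : ℤ) * (F c).2.2)
  have key : ∀ H, ∀ c ∈ Cv 2 H,
      ((F' c).1 ≠ 0 ∧ (F' c).2 ≠ 0 ∧ (F' c).1 ≠ (F' c).2) ∧
        (F' c).1.natAbs ^ 6 ≤ 16 * H ∧ (F' c).2.natAbs ^ 6 ≤ 16 * H := by
    intro H c hc
    obtain ⟨a1, a2, a3⟩ := hmem H c hc
    obtain ⟨b1, b2, b3, b4, b5, e1, e2, e3, hr, d1, d2⟩ := hF c a1 a3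
    have hg : ((F c).1 : ℤ) ≠ 0 := by exact_mod_cast (by omega : (F c).1 ≠ 0)
    have hne1 : (F' c).1 ≠ 0 := mul_ne_zero hg b3
    have hne2 : (F' c).2 ≠ 0 := mul_ne_zero hg b4
    have hne3 : (F' c).1 ≠ (F' c).2 := fun h => b5 (mul_left_cancel₀ hg h)
    obtain ⟨r1, r2⟩ := root_bd hr
    refine ⟨⟨hne1, hne2, hne3⟩, ?_, ?_⟩
    · rw [d1] at r1
      exact size_bd r1 a2
    · rw [d2] at r2
      exact size_bd r2 a2
  have hinj' : ∀ H, Set.InjOn F' (Cv 2 H : Set (ℤ × ℤ)) := by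
    intro H c hc c' hc' h
    obtain ⟨a1, _, a3⟩ := hmem H c hc
    obtain ⟨a1', _, a3'⟩ := hmem H c' hc'
    obtain ⟨b1, b2, _⟩ := hF c a1 a3
    obtain ⟨b1', b2', _⟩ := hF c' a1' a3'
    apply hinj ⟨a1, a3⟩ ⟨a1', a3'⟩
    have hgcd : ∀ x : ℕ × ℤ × ℤ, IsCoprime x.2.1 x.2.2 →
        Int.gcd ((x.1 : ℤ) * x.2.1) ((x.1 : ℤ) * x.2.2) = x.1 := by
      intro x hx
      rw [Int.gcd_mul_left, Int.isCoprime_iff_gcd_eq_one.1 hx, mul_one, Int.natAbs_natCast]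
    have g1 : (F c).1 = (F c').1 := by
      rw [← hgcd _ b2, ← hgcd _ b2']
      have k1 := congrArg Prod.fst h
      have k2 := congrArg Prod.snd h
      change ((F c).1 : ℤ) * (F c).2.1 = ((F c').1 : ℤ) * (F c').2.1 at k1
      change ((F c).1 : ℤ) * (F c).2.2 = ((F c').1 : ℤ) * (F c').2.2 at k2
      rw [k1, k2]
    have hg : ((F c).1 : ℤ) ≠ 0 := by exact_mod_cast (by omega : (F c).1 ≠ 0)
    have k1 : ((F c).1 : ℤ) * (F c).2.1 = ((F c').1 : ℤ) * (F c').2.1 := congrArg Prod.fst h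
    have k2 : ((F c).1 : ℤ) * (F c).2.2 = ((F c').1 : ℤ) * (F c').2.2 := congrArg Prod.snd h
    rw [← g1] at k1 k2
    exact Prod.ext g1 (Prod.ext (mul_left_cancel₀ hg k1) (mul_left_cancel₀ hg k2))
  refine ⟨F', fun H c hc => ?_, ?_⟩
  · obtain ⟨a1, a2, a3⟩ := hmem H c hc
    obtain ⟨b1, b2, b3, b4, b5, e1, e2, e3, hr, d1, d2⟩ := hF c a1 a3
    exact ⟨a1, (key H c hc).1.1, (key H c hc).1.2.1, (key H c hc).1.2.2, e1, e2, e3, hr, d1, d2⟩
  choose Z hZ1 C hC0 M hM0 hZ2 using fun k : ℕ => one_k hinj' key (Nat.succ_le_succ (Nat.zero_le k))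
  obtain ⟨Z', hZ', hfin⟩ := Pool.Agent.Q17.BF.diagS (Cv 2) (Pool.Agent.TH344.GT.Cv_mono' 2) Z
    (fun k ε hε => by
      obtain ⟨H0, h⟩ := hZ1 k ε hε
      refine ⟨H0, fun H hH => ?_⟩
      have e0 : ((Cv 2 H : Set (ℤ × ℤ)) ∩ Z k) =
        (((Cv 2 H).filter (fun c => c ∈ Z k) : Finset (ℤ × ℤ)) : Set (ℤ × ℤ)) := by
        ext c
        simp
      have h1 := h H hH
      rw [e0, Set.ncard_coe_finset] at h1
      exact h1)
  refine ⟨Z', fun ε hε => ?_, fun k => ?_⟩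
  · obtain ⟨H0, h⟩ := hZ' ε hε
    refine ⟨H0, fun H hH => ?_⟩
    have e0 : ((Cv 2 H : Set (ℤ × ℤ)) ∩ Z') =
      (((Cv 2 H).filter (fun c => c ∈ Z') : Finset (ℤ × ℤ)) : Set (ℤ × ℤ)) := by
      ext c
      simp
    rw [e0, Set.ncard_coe_finset]
    exact h H hH
  · rcases k with _ | k
    · refine ⟨1, zero_le_one, fun d hd H S hS hSZ => ?_⟩
      have h1 : (1 : ℝ) ≤ (2 * 8 ^ 0) ^ d.natAbs.primeFactors.card :=
        one_le_pow₀ (by norm_num)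
      have h2 : ((S.card : ℕ) : ℝ) ≤ (Cv 2 H).card := by exact_mod_cast card_le_card hS
      have h3 : ∑ c ∈ S, ((Sel (d * (F' c).1) (d * (F' c).2)).ncard : ℝ) ^ 0 = S.card := by
        simp
      rw [h3, one_mul]
      calc ((S.card : ℕ) : ℝ) ≤ 1 * (Cv 2 H).card := by rw [one_mul]; exact h2
        _ ≤ _ := mul_le_mul_of_nonneg_right h1 (Nat.cast_nonneg _)
    · obtain ⟨h, hh⟩ := hfin k
      set D : ℝ := ∑ c ∈ Cv 2 h, C k * M k c * (16 * (h : ℝ) + 1) ^ 2 with hD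
      have hD0 : 0 ≤ D := sum_nonneg fun c _ => by
        have := hM0 k c
        have := hC0 k
        positivity
      refine ⟨C k + D, add_nonneg (hC0 k) hD0, fun d hd H S hS hSZ => ?_⟩
      set Q : ℝ := (2 * 8 ^ (k + 1)) ^ d.natAbs.primeFactors.card with hQ
      have hQ0 : 0 ≤ Q := by positivity
      rcases S.eq_empty_or_nonempty with rfl | ⟨c0, hc0⟩
      · rw [sum_empty]
        have := hC0 k
        positivity
      have hcard : (1 : ℝ) ≤ (Cv 2 H).card := by exact_mod_cast card_pos.2 ⟨c0, hS hc0⟩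
      have h1 := (hZ2 k d hd H).2 (S.filter (fun c => c ∉ Z k)) ((filter_subset _ _).trans hS)
        (fun c hc => (mem_filter.1 hc).2)
      have h2 : ∑ c ∈ S.filter (fun c => ¬ c ∉ Z k),
          ((Sel (d * (F' c).1) (d * (F' c).2)).ncard : ℝ) ^ (k + 1) ≤ D * Q := by
        have h3 : S.filter (fun c => ¬ c ∉ Z k) ⊆ Cv 2 h := by
          intro c hc
          obtain ⟨hc1, hc2⟩ := mem_filter.1 hc
          exact hh c (not_not.1 hc2) (hSZ c hc1)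
        calc ∑ c ∈ S.filter (fun c => ¬ c ∉ Z k),
              ((Sel (d * (F' c).1) (d * (F' c).2)).ncard : ℝ) ^ (k + 1)
            ≤ ∑ c ∈ Cv 2 h, ((Sel (d * (F' c).1) (d * (F' c).2)).ncard : ℝ) ^ (k + 1) :=
              sum_le_sum_of_subset_of_nonneg h3 fun c _ _ => by positivity
          _ ≤ ∑ c ∈ Cv 2 h, C k * Q * M k c * (16 * (h : ℝ) + 1) ^ 2 :=
              sum_le_sum fun c hc => (hZ2 k d hd h).1 c hc
          _ = D * Q := by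
              rw [hD, sum_mul]
              exact sum_congr rfl fun c _ => by ring
      rw [← sum_filter_add_sum_filter_not S (fun c => c ∉ Z k)]
      calc _ ≤ C k * Q * (Cv 2 H).card + D * Q := add_le_add h1 h2
        _ ≤ C k * Q * (Cv 2 H).card + D * Q * (Cv 2 H).card :=
            add_le_add le_rfl (le_mul_of_one_le_right (mul_nonneg hD0 hQ0) hcard)
        _ = _ := by ring

end Pool.Agent.Q17.FT
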