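import Mathlib
import Pool.Agent.Q17.FT.Uni

/-! General families with parameters in a box: one set of density zero for all the moments and for all
the twists, and bounds that are uniform in the twist. -/

set_option autoImplicit false

namespace Pool.Agent.Q17.FT

open Finset Pool.Agent.W262.RK Pool.Agent.W307.RT Pool.Agent.W307.RS Pool.Agent.W307.SE
  Pool.Agent.W307.FK Pool.Agent.TH344.DT Pool.Agent.TH344.DT.FinP Pool.Agent.W410.FK

variable {α : Type} [DecidableEq α] {A : ℕ → Finset α} {F : α → ℤ × ℤ} {K : ℕ} (hK : 1 ≤ K)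

include hK in
/-- the moments of one exponent: an exceptional set, and bounds uniform in the twist -/
lemma one_kG (hinj : ∀ H, Set.InjOn F (A H : Set α))
    (hbd : ∀ H, ∀ c ∈ A H, ((F c).1 ≠ 0 ∧ (F c).2 ≠ 0 ∧ (F c).1 ≠ (F c).2) ∧
      (F c).1.natAbs ^ 6 ≤ K * H ∧ (F c).2.natAbs ^ 6 ≤ K * H)
    (hlow : ∃ (C4 : ℝ) (N1 : ℕ), 0 < C4 ∧ ∀ N H : ℕ, N1 ≤ N → N ^ 6 ≤ K * H →
      (N : ℝ) ^ 2 ≤ C4 * (A H).card) {k : ℕ} (hk : 1 ≤ k) :
    ∃ Z : Set α, (∀ ε : ℝ, 0 < ε → ∃ H0 : ℕ, ∀ H, H0 ≤ H →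
      (((A H : Set α) ∩ Z).ncard : ℝ) ≤ ε * (A H).card) ∧
    ∃ C : ℝ, 0 ≤ C ∧ ∃ M : α → ℝ, (∀ c, 0 ≤ M c) ∧ ∀ d : ℤ, d ≠ 0 → ∀ H,
      (∀ c ∈ A H, ((Sel (d * (F c).1) (d * (F c).2)).ncard : ℝ) ^ k ≤
        C * (2 * 8 ^ k) ^ d.natAbs.primeFactors.card * M c * (K * H + 1) ^ 2) ∧
      ∀ S : Finset α, S ⊆ A H → (∀ c ∈ S, c ∉ Z) →
      ∑ c ∈ S, ((Sel (d * (F c).1) (d * (F c).2)).ncard : ℝ) ^ k ≤
        C * (2 * 8 ^ k) ^ d.natAbs.primeFactors.card * (A H).card := by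
  classical
  obtain ⟨T, hT1, hT2, hM⟩ := mafw_of (atw_of ful lnk) cmb expw k hk
  obtain ⟨C, hC0, hC⟩ := box_Gu hT1 k (avg k T hT1 hM _ selfg)
  obtain ⟨C4, N1, hC4, hlow⟩ := hlow
  have hQ0 : ∀ d : ℤ, (0 : ℝ) ≤ (2 * 8 ^ k) ^ d.natAbs.primeFactors.card := fun d => by positivity
  -- the side of the box
  have hbox : ∀ H : ℕ, ∃ N : ℕ, N ^ 6 ≤ K * H ∧ ∀ n : ℕ, n ^ 6 ≤ K * H → n ≤ N := by
    intro H
    refine ⟨Nat.findGreatest (fun n => n ^ 6 ≤ K * H) (K * H), ?_, fun n hn => ?_⟩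
    · exact Nat.findGreatest_spec (P := fun n => n ^ 6 ≤ K * H) (Nat.zero_le _) (by simp)
    · exact Nat.le_findGreatest ((Nat.le_self_pow (by norm_num) n).trans hn) hn
  choose N hN1 hN2 using hbox
  have hpos : ∀ H, ∀ c ∈ A H, 1 ≤ N H := by
    intro H c hc
    obtain ⟨⟨h1, -, -⟩, h2, -⟩ := hbd H c hc
    exact (Nat.pos_of_ne_zero (Int.natAbs_ne_zero.2 h1)).trans_le (hN2 H _ h2)
  have hbx : ∀ H, ∀ c ∈ A H, F c ∈ Box (N H) := by
    intro H c hc
    obtain ⟨-, h2, h3⟩ := hbd H c hc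
    rw [mem_Box]
    exact ⟨hN2 H _ h2, hN2 H _ h3⟩
  refine ⟨{c | rho T (omg (F c)) < 1}, fun ε hε => ?_, C * (1 + (C4 + (N1 : ℝ) ^ 2)), ?_,
    fun c => (rho T (omg (F c)))⁻¹, fun c => ?_, fun d hd H => ⟨fun c hc => ?_, fun S hS hSZ => ?_⟩⟩
  · obtain ⟨N0, hbad⟩ := bad T hT1 hT2 (ε / C4) (by positivity)
    refine ⟨(max N0 N1 + 1) ^ 6, fun H hH => ?_⟩
    have hN3 : max N0 N1 + 1 ≤ N H := hN2 H _ (hH.trans (Nat.le_mul_of_pos_left H hK))
    have hNN0 : N0 ≤ N H := by omega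
    have hNN1 : N1 ≤ N H := by omega
    have e0 : ((A H : Set α) ∩ {c | rho T (omg (F c)) < 1}) =
        (((A H).filter (fun c => rho T (omg (F c)) < 1) : Finset α) : Set α) := by
      ext c
      simp
    rw [e0, Set.ncard_coe_finset]
    have h1 : ((A H).filter (fun c => rho T (omg (F c)) < 1)).card ≤
        ((Box (N H)).filter (fun t => t.1 ≠ 0 ∧ t.2 ≠ 0 ∧ t.1 ≠ t.2 ∧
          rho T (omg t) < 1)).card := by
      apply card_le_card_of_injOn F
      · intro c hc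
        rw [mem_coe, mem_filter] at hc
        obtain ⟨⟨b1, b2, b3⟩, b4, b5⟩ := hbd H c hc.1
        rw [mem_coe, mem_filter]
        exact ⟨hbx H c hc.1, b1, b2, b3, hc.2⟩
      · intro c hc c' hc' h
        rw [mem_coe, mem_filter] at hc hc'
        exact hinj H (mem_coe.2 hc.1) (mem_coe.2 hc'.1) h
    have h2 := hbad (N H) hNN0
    have h3 := hlow (N H) H hNN1 (hN1 H)
    calc (((A H).filter (fun c => rho T (omg (F c)) < 1)).card : ℝ)
        ≤ (((Box (N H)).filter (fun t => t.1 ≠ 0 ∧ t.2 ≠ 0 ∧ t.1 ≠ t.2 ∧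
          rho T (omg t) < 1)).card : ℝ) := by exact_mod_cast h1
      _ ≤ ε / C4 * (N H) ^ 2 := h2
      _ ≤ ε / C4 * (C4 * (A H).card) := mul_le_mul_of_nonneg_left h3 (by positivity)
      _ = ε * (A H).card := by
        field_simp
  · positivity
  · exact inv_nonneg.2 (rho_pos hT1 _).le
  · -- one curve
    have h1 : Gd d k T (F c) ≤ C * (2 * 8 ^ k) ^ d.natAbs.primeFactors.card * (N H : ℝ) ^ 2 :=
      (single_le_sum (fun t _ => Gd_nonneg hT1 k t) (hbx H c hc)).trans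
        (hC d hd (N H) (hpos H c hc))
    have h2 : Gd d k T (F c) =
        ((Sel (d * (F c).1) (d * (F c).2)).ncard : ℝ) ^ k * rho T (omg (F c)) := by
      unfold Gd
      rw [if_pos (hbd H c hc).1]
    have h3 := rho_pos hT1 (omg (F c))
    have h4 : (N H : ℝ) ≤ K * H + 1 := by
      have h5 : N H ≤ K * H := (Nat.le_self_pow (by norm_num) _).trans (hN1 H)
      have : (N H : ℝ) ≤ K * H := by exact_mod_cast h5
      linarith
    have h5 : (N H : ℝ) ^ 2 ≤ (K * H + 1) ^ 2 := pow_le_pow_left₀ (Nat.cast_nonneg _) h4 2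
    rw [h2, ← le_div_iff₀ h3] at h1
    refine h1.trans ?_
    rw [div_eq_mul_inv]
    have h6 : C * (2 * 8 ^ k) ^ d.natAbs.primeFactors.card * (N H : ℝ) ^ 2 *
        (rho T (omg (F c)))⁻¹ ≤ C * (2 * 8 ^ k) ^ d.natAbs.primeFactors.card *
          (K * H + 1) ^ 2 * (rho T (omg (F c)))⁻¹ := by
      have := inv_nonneg.2 h3.le
      gcongr
    refine h6.trans ?_
    have h7 : C * (2 * 8 ^ k) ^ d.natAbs.primeFactors.card * (K * (H : ℝ) + 1) ^ 2 *
        (rho T (omg (F c)))⁻¹ = C * 1 * (2 * 8 ^ k) ^ d.natAbs.primeFactors.card *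
          (rho T (omg (F c)))⁻¹ * (K * H + 1) ^ 2 := by ring
    rw [h7]
    have h8 := inv_nonneg.2 h3.le
    have h9 : (1 : ℝ) ≤ 1 + (C4 + (N1 : ℝ) ^ 2) := by
      have : (0 : ℝ) ≤ C4 + (N1 : ℝ) ^ 2 := by positivity
      linarith
    gcongr
  · rcases S.eq_empty_or_nonempty with rfl | ⟨c0, hc0⟩
    · rw [sum_empty]
      positivity
    have hNpos := hpos H c0 (hS hc0)
    have hcard : (1 : ℝ) ≤ (A H).card := by
      exact_mod_cast card_pos.2 ⟨c0, hS hc0⟩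
    have h1 : ∑ c ∈ S, ((Sel (d * (F c).1) (d * (F c).2)).ncard : ℝ) ^ k ≤
        ∑ t ∈ Box (N H), Gd d k T t := by
      calc ∑ c ∈ S, ((Sel (d * (F c).1) (d * (F c).2)).ncard : ℝ) ^ k
          = ∑ c ∈ S, Gd d k T (F c) := by
            refine sum_congr rfl fun c hc => ?_
            unfold Gd
            rw [if_pos (hbd H c (hS hc)).1]
            have h2 : rho T (omg (F c)) = 1 :=
              le_antisymm (FinP.rho_le_one _ _) (not_lt.1 (hSZ c hc))
            rw [h2, mul_one]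
        _ = ∑ t ∈ S.image F, Gd d k T t := by
            rw [sum_image]
            intro c hc c' hc' h
            exact hinj H (mem_coe.2 (hS hc)) (mem_coe.2 (hS hc')) h
        _ ≤ _ := sum_le_sum_of_subset_of_nonneg (fun t ht => by
            obtain ⟨c, hc, rfl⟩ := mem_image.1 ht
            exact hbx H c (hS hc)) fun t _ _ => Gd_nonneg hT1 k t
    have h2 : (N H : ℝ) ^ 2 ≤ (C4 + (N1 : ℝ) ^ 2) * (A H).card := by
      rcases le_total N1 (N H) with h3 | h3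
      · have h4 := hlow (N H) H h3 (hN1 H)
        have h5 : (0 : ℝ) ≤ (N1 : ℝ) ^ 2 * (A H).card := by positivity
        linarith
      · have h4 : (N H : ℝ) ^ 2 ≤ (N1 : ℝ) ^ 2 :=
          pow_le_pow_left₀ (Nat.cast_nonneg _) (by exact_mod_cast h3) 2
        have h5 : (N1 : ℝ) ^ 2 * 1 ≤ (N1 : ℝ) ^ 2 * (A H).card :=
          mul_le_mul_of_nonneg_left hcard (by positivity)
        have h6 : (0 : ℝ) ≤ C4 * (A H).card := by positivity
        linarith
    refine h1.trans ((hC d hd (N H) hNpos).trans ?_)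
    calc C * (2 * 8 ^ k) ^ d.natAbs.primeFactors.card * (N H : ℝ) ^ 2
        ≤ C * (2 * 8 ^ k) ^ d.natAbs.primeFactors.card *
          ((C4 + (N1 : ℝ) ^ 2) * (A H).card) := by gcongr
      _ ≤ C * (2 * 8 ^ k) ^ d.natAbs.primeFactors.card *
          ((1 + (C4 + (N1 : ℝ) ^ 2)) * (A H).card) := by
          refine mul_le_mul_of_nonneg_left ?_ (mul_nonneg hC0 (hQ0 d))
          exact mul_le_mul_of_nonneg_right (by linarith) (Nat.cast_nonneg _)
      _ = _ := by ring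

include hK in
/-- **One set of density zero for all the moments and for all the twists of the curves of a general
family, and bounds uniform in the twist.** -/
theorem unifG (hmono : Monotone A) (hinj : ∀ H, Set.InjOn F (A H : Set α))
    (hbd : ∀ H, ∀ c ∈ A H, ((F c).1 ≠ 0 ∧ (F c).2 ≠ 0 ∧ (F c).1 ≠ (F c).2) ∧
      (F c).1.natAbs ^ 6 ≤ K * H ∧ (F c).2.natAbs ^ 6 ≤ K * H)
    (hlow : ∃ (C4 : ℝ) (N1 : ℕ), 0 < C4 ∧ ∀ N H : ℕ, N1 ≤ N → N ^ 6 ≤ K * H →
      (N : ℝ) ^ 2 ≤ C4 * (A H).card) :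
    ∃ Z : Set α, (∀ ε : ℝ, 0 < ε → ∃ H0 : ℕ, ∀ H, H0 ≤ H →
      (((A H : Set α) ∩ Z).ncard : ℝ) ≤ ε * (A H).card) ∧
    ∀ k : ℕ, ∃ C : ℝ, 0 ≤ C ∧ ∀ d : ℤ, d ≠ 0 → ∀ H, ∀ S : Finset α, S ⊆ A H →
      (∀ c ∈ S, c ∉ Z) → ∑ c ∈ S, ((Sel (d * (F c).1) (d * (F c).2)).ncard : ℝ) ^ k ≤
        C * (2 * 8 ^ k) ^ d.natAbs.primeFactors.card * (A H).card := by
  classical
  choose Z hZ1 C hC0 M hM0 hZ2 using fun k : ℕ =>
    one_kG hK hinj hbd hlow (Nat.succ_le_succ (Nat.zero_le k))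
  obtain ⟨Z', hZ', hfin⟩ := Pool.Agent.Q17.BF.diagS A hmono Z
    (fun k ε hε => by
      obtain ⟨H0, h⟩ := hZ1 k ε hε
      refine ⟨H0, fun H hH => ?_⟩
      have e0 : ((A H : Set α) ∩ Z k) =
        (((A H).filter (fun c => c ∈ Z k) : Finset α) : Set α) := by
        ext c
        simp
      have h1 := h H hH
      rw [e0, Set.ncard_coe_finset] at h1
      exact h1)
  refine ⟨Z', fun ε hε => ?_, fun k => ?_⟩
  · obtain ⟨H0, h⟩ := hZ' ε hε
    refine ⟨H0, fun H hH => ?_⟩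
    have e0 : ((A H : Set α) ∩ Z') =
      (((A H).filter (fun c => c ∈ Z') : Finset α) : Set α) := by
      ext c
      simp
    rw [e0, Set.ncard_coe_finset]
    exact h H hH
  · rcases k with _ | k
    · refine ⟨1, zero_le_one, fun d hd H S hS hSZ => ?_⟩
      have h1 : (1 : ℝ) ≤ (2 * 8 ^ 0) ^ d.natAbs.primeFactors.card :=
        one_le_pow₀ (by norm_num)
      have h2 : ((S.card : ℕ) : ℝ) ≤ (A H).card := by exact_mod_cast card_le_card hS
      have h3 : ∑ c ∈ S, ((Sel (d * (F c).1) (d * (F c).2)).ncard : ℝ) ^ 0 = S.card := by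
        simp
      rw [h3, one_mul]
      calc ((S.card : ℕ) : ℝ) ≤ 1 * (A H).card := by rw [one_mul]; exact h2
        _ ≤ _ := mul_le_mul_of_nonneg_right h1 (Nat.cast_nonneg _)
    · obtain ⟨h, hh⟩ := hfin k
      set D : ℝ := ∑ c ∈ A h, C k * M k c * (K * (h : ℝ) + 1) ^ 2 with hD
      have hD0 : 0 ≤ D := sum_nonneg fun c _ => by
        have := hM0 k c
        have := hC0 k
        positivity
      refine ⟨C k + D, add_nonneg (hC0 k) hD0, fun d hd H S hS hSZ => ?_⟩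
      set Q : ℝ := (2 * 8 ^ (k + 1)) ^ d.natAbs.primeFactors.card with hQ
      have hQ0 : 0 ≤ Q := by positivity
      rcases S.eq_empty_or_nonempty with rfl | ⟨c0, hc0⟩
      · rw [sum_empty]
        have := hC0 k
        positivity
      have hcard : (1 : ℝ) ≤ (A H).card := by exact_mod_cast card_pos.2 ⟨c0, hS hc0⟩
      have h1 := (hZ2 k d hd H).2 (S.filter (fun c => c ∉ Z k)) ((filter_subset _ _).trans hS)
        (fun c hc => (mem_filter.1 hc).2)
      have h2 : ∑ c ∈ S.filter (fun c => ¬ c ∉ Z k),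
          ((Sel (d * (F c).1) (d * (F c).2)).ncard : ℝ) ^ (k + 1) ≤ D * Q := by
        have h3 : S.filter (fun c => ¬ c ∉ Z k) ⊆ A h := by
          intro c hc
          obtain ⟨hc1, hc2⟩ := mem_filter.1 hc
          exact hh c (not_not.1 hc2) (hSZ c hc1)
        calc ∑ c ∈ S.filter (fun c => ¬ c ∉ Z k),
              ((Sel (d * (F c).1) (d * (F c).2)).ncard : ℝ) ^ (k + 1)
            ≤ ∑ c ∈ A h, ((Sel (d * (F c).1) (d * (F c).2)).ncard : ℝ) ^ (k + 1) :=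
              sum_le_sum_of_subset_of_nonneg h3 fun c _ _ => by positivity
          _ ≤ ∑ c ∈ A h, C k * Q * M k c * (K * (h : ℝ) + 1) ^ 2 :=
              sum_le_sum fun c hc => (hZ2 k d hd h).1 c hc
          _ = D * Q := by
              rw [hD, sum_mul]
              exact sum_congr rfl fun c _ => by ring
      rw [← sum_filter_add_sum_filter_not S (fun c => c ∉ Z k)]
      calc _ ≤ C k * Q * (A H).card + D * Q := add_le_add h1 h2
        _ ≤ C k * Q * (A H).card + D * Q * (A H).card :=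
            add_le_add le_rfl (le_mul_of_one_le_right (mul_nonneg hD0 hQ0) hcard)
        _ = _ := by ring

end Pool.Agent.Q17.FT
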